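import Pool.Agent.helper5.IH.Spec2

/-!
# IH.MNC: a compatible transition system with the smallest number of circuits
-/

set_option autoImplicit false

namespace Pool.Agent.IH
open Finset CT SYM

/-- Darts in the same circuit of a compatible transition system have the same class. -/
theorem MNC_class {V : Type} {G : SimpleGraph V} {b : ℕ} (c : Sym2 V → Fin b)
    (τ : G.Dart → G.Dart) (h : Comp c τ) (d d' : G.Dart)
    (hd : cir (fun d : G.Dart => d.symm) τ d = cir (fun d : G.Dart => d.symm) τ d') :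
    c d.edge = c d'.edge := by
  have hlift : ∀ x y : G.Dart, (y = x.symm ∨ y = τ x) → c x.edge = c y.edge := by
    rintro x y (rfl | rfl)
    · rw [SimpleGraph.Dart.edge_symm]
    · exact (h.2 x).symm
  exact congrArg (Quot.lift (fun x : G.Dart => c x.edge) hlift) hd

theorem MNC (hMRV : MRV_stmt) (hDEC2 : DEC2_stmt) : MNC_stmt := by
  intro V _ _ G b c hG hc
  classical
  obtain ⟨⟨τ₀, hτ₀⟩, hb⟩ := hDEC2 V G b c hG hc
  have hex : ∃ n : ℕ, ∃ τ : G.Dart → G.Dart, Comp c τ ∧ nci τ = n := ⟨nci τ₀, τ₀, hτ₀, rfl⟩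
  obtain ⟨τ, hτ, hn⟩ := Nat.find_spec hex
  have hmin : ∀ τ' : G.Dart → G.Dart, Comp c τ' → nci τ ≤ nci τ' := by
    intro τ' hτ'
    rw [hn]
    exact Nat.find_min' hex ⟨τ', hτ', rfl⟩
  refine ⟨τ, hτ, hb τ hτ, ?_⟩
  intro v
  constructor
  · rintro ⟨d, d', hd, hd', hne⟩
    by_contra hS
    have hsame : ∀ w w', G.Adj v w → G.Adj v w' → c s(v, w) = c s(v, w') := by
      intro w w' hw hw'
      by_contra hcon
      exact hS ⟨w, w', hw, hw', hcon⟩
    obtain ⟨τ₁, hτ₁, hout, hcard⟩ := hMRV V G τ d d' hG hτ.1 (hd.trans hd'.symm) hne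
    have hcomp : Comp c τ₁ := by
      refine ⟨hτ₁, ?_⟩
      intro x
      by_cases hx : x.fst = d.fst
      · have e1 : x.fst = v := hx.trans hd
        have e2 : (τ₁ x).fst = v := (hτ₁.2.1 x).trans e1
        have a1 : G.Adj v x.snd := by
          have := x.adj
          rw [e1] at this
          exact this
        have a2 : G.Adj v (τ₁ x).snd := by
          have := (τ₁ x).adj
          rw [e2] at this
          exact this
        have f1 : x.edge = s(v, x.snd) := by
          rw [← e1]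
          rfl
        have f2 : (τ₁ x).edge = s(v, (τ₁ x).snd) := by
          have h5 : (τ₁ x).edge = s((τ₁ x).fst, (τ₁ x).snd) := rfl
          rw [h5, e2]
        rw [f1, f2]
        exact hsame _ _ a2 a1
      · rw [hout x hx]
        exact hτ.2 x
    have := hmin τ₁ hcomp
    omega
  · rintro ⟨w, w', hw, hw', hne⟩
    refine ⟨⟨(v, w), hw⟩, ⟨(v, w'), hw'⟩, rfl, rfl, ?_⟩
    intro hcir
    exact hne (MNC_class c τ hτ _ _ hcir)

end Pool.Agent.IH
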