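import Pool.Agent.helper5.IH.Spec

/-!
# IH.WEU: an Eulerian closed walk gives a word
-/

set_option autoImplicit false

namespace Pool.Agent.IH
open Finset CT SYM

theorem WEU : WEU_stmt := by
  intro V _ _ G u p hG hp
  have hu : ∃ w, G.Adj u w := by
    have h4 := hG u
    have hne : Nonempty {w // G.Adj u w} := by
      by_contra hn
      rw [not_nonempty_iff] at hn
      rw [Nat.card_of_isEmpty] at h4
      exact absurd h4 (by norm_num)
    exact ⟨hne.some.1, hne.some.2⟩
  have hpos : 0 < p.length := by
    obtain ⟨w, hw⟩ := hu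
    have h1 : s(u, w) ∈ p.edges := hp.mem_edges_iff.mpr (G.mem_edgeSet.mpr hw)
    obtain ⟨i, hi, _⟩ := (p.mk_mem_edges_iff_exists).mp h1
    omega
  have hsucc : ∀ i, i < p.length →
      p.getVert ((i + 1) % p.length) = p.getVert (i + 1) := by
    intro i hi
    rcases Nat.lt_or_ge (i + 1) p.length with h | h
    · rw [Nat.mod_eq_of_lt h]
    · have h1 : i + 1 = p.length := by omega
      rw [h1, Nat.mod_self, p.getVert_zero, p.getVert_length]
  have hstep : ∀ i, p.getVert ((i + 1) % p.length) = p.getVert (i % p.length + 1) := by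
    intro i
    rw [← hsucc (i % p.length) (Nat.mod_lt _ hpos), Nat.mod_add_mod]
  have hedge : ∀ i, i < p.length →
      s(p.getVert (i % p.length), p.getVert ((i + 1) % p.length)) =
        s(p.getVert i, p.getVert (i + 1)) := by
    intro i hi
    rw [hsucc i hi, Nat.mod_eq_of_lt hi]
  refine ⟨⟨hpos, ?_, ?_, ?_, ?_⟩, ?_⟩
  · intro i
    show p.getVert ((i + p.length) % p.length) = p.getVert (i % p.length)
    rw [Nat.add_mod_right]
  · intro i
    show G.Adj (p.getVert (i % p.length)) (p.getVert ((i + 1) % p.length))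
    rw [hstep i]
    exact p.adj_getVert_succ (Nat.mod_lt _ hpos)
  · intro i hi j hj h
    have h2 : s(p.getVert i, p.getVert (i + 1)) = s(p.getVert j, p.getVert (j + 1)) := by
      rw [← hedge i hi, ← hedge j hj]
      exact h
    have hi' : i < p.edges.length := by rw [p.length_edges]; exact hi
    have hj' : j < p.edges.length := by rw [p.length_edges]; exact hj
    have h3 : p.edges[i] = p.edges[j] := by
      rw [SimpleGraph.Walk.getElem_edges hi', SimpleGraph.Walk.getElem_edges hj', h2]
    exact (hp.isTrail.edges_nodup.getElem_inj_iff).mp h3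
  · intro x w hxw
    have h1 : s(x, w) ∈ p.edges := hp.mem_edges_iff.mpr (G.mem_edgeSet.mpr hxw)
    obtain ⟨i, hi, h2⟩ := (p.mk_mem_edges_iff_exists).mp h1
    exact ⟨i, hi, (hedge i hi).trans h2⟩
  · unfold interlaceGraph IG
    have h : (fun v w : V => ∃ i j k l, i < j ∧ j < k ∧ k < l ∧ l < p.length ∧
        p.getVert i = v ∧ p.getVert j = w ∧ p.getVert k = v ∧ p.getVert l = w) =
        (fun v w : V => ∃ i j k l, i < j ∧ j < k ∧ k < l ∧ l < p.length ∧
        p.getVert (i % p.length) = v ∧ p.getVert (j % p.length) = w ∧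
        p.getVert (k % p.length) = v ∧ p.getVert (l % p.length) = w) := by
      funext v w
      apply propext
      constructor
      · rintro ⟨i, j, k, l, h1, h2, h3, h4, h5⟩
        refine ⟨i, j, k, l, h1, h2, h3, h4, ?_⟩
        rw [Nat.mod_eq_of_lt (show i < p.length by omega),
          Nat.mod_eq_of_lt (show j < p.length by omega),
          Nat.mod_eq_of_lt (show k < p.length by omega), Nat.mod_eq_of_lt h4]
        exact h5
      · rintro ⟨i, j, k, l, h1, h2, h3, h4, h5⟩
        refine ⟨i, j, k, l, h1, h2, h3, h4, ?_⟩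
        rw [Nat.mod_eq_of_lt (show i < p.length by omega),
          Nat.mod_eq_of_lt (show j < p.length by omega),
          Nat.mod_eq_of_lt (show k < p.length by omega), Nat.mod_eq_of_lt h4] at h5
        exact h5
    rw [h]

end Pool.Agent.IH
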